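import Pool.Agent.Helper28.MT.Goals3

/-!
# Project MT3: choice of the description (packet MT3-ENC)
-/

set_option autoImplicit false

namespace Pool.Agent.Helper28.MT3

open Finset
open Pool.Agent.Helper55.Rota
open Pool.Agent.Helper28.MT

lemma three_h (m : ℕ) : 3 * (m + 12) ≤ 2 ^ (m / 2 + 7) := by
  induction m using Nat.strong_induction_on with
  | _ m ih =>
    rcases Nat.lt_or_ge m 2 with h | h
    · interval_cases m <;> norm_num
    · obtain ⟨r, rfl⟩ : ∃ r, m = r + 2 := ⟨m - 2, by omega⟩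
      have h1 := ih r (by omega)
      have h2 : (r + 2) / 2 + 7 = (r / 2 + 7) + 1 := by omega
      rw [h2, pow_succ]
      omega

lemma big_e (k h e : ℕ) (hkh2 : 2 ^ h ≤ 2 * k) (hh : 12 ≤ h) (he : 1 ≤ e)
    (hc : ¬ 2 ^ e * (e + 2 * h) ≤ 4 * k * e) : h ≤ 2 * e := by
  by_contra hcon
  rw [not_le] at hcon
  apply hc
  obtain ⟨m, rfl⟩ : ∃ m, h = m + 12 := ⟨h - 12, by omega⟩
  have h1 := three_h m
  have h2 : e + (m / 2 + 7) ≤ m + 12 + 1 := by omega
  have h3 : (2 : ℕ) ^ e * (e + 2 * (m + 12)) ≤ 2 ^ e * (3 * (m + 12)) :=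
    Nat.mul_le_mul_left _ (by omega)
  have h4 : (2 : ℕ) ^ e * (3 * (m + 12)) ≤ 2 ^ e * 2 ^ (m / 2 + 7) := Nat.mul_le_mul_left _ h1
  have h5 : (2 : ℕ) ^ e * 2 ^ (m / 2 + 7) ≤ 2 ^ (m + 12) * 2 := by
    rw [← pow_add, ← pow_succ]
    exact Nat.pow_le_pow_right (by norm_num) h2
  have h6 : (2 : ℕ) ^ (m + 12) * 2 ≤ 4 * k * e := by
    calc (2 : ℕ) ^ (m + 12) * 2 ≤ 2 * k * 2 := Nat.mul_le_mul_right _ hkh2
      _ = 4 * k * 1 := by ring
      _ ≤ 4 * k * e := Nat.mul_le_mul_left _ he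
  exact h3.trans (h4.trans (h5.trans h6))

/-- **MT3-ENC**. -/
theorem mt3_enc : G_ENCA → G_U → G_ENC := by
  intro hE hU α _ _ R n k h b t a S c T y v c0 e hk hn hkh hkh2 hh hR hloop hb ht ha hO hc0 he hG
  by_cases hc : 2 ^ e * (e + 2 * h) ≤ 4 * k * e
  · obtain ⟨j, g, u, Q, h1, h2⟩ := hE α R n k b t a S c T y v c0 (2 ^ e) hk hn hR hloop hb ht ha hO
      hc0 hG
    refine ⟨Vfam R b t a j g u Q, ?_, h1, h2⟩
    unfold Vf
    rw [if_pos hc, mem_union]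
    left
    rw [mem_image]
    exact ⟨(j, g, u, Q), mem_univ _, rfl⟩
  · have h2e := big_e k h e hkh2 hh he hc
    obtain ⟨e', g', h1⟩ := hU α R n b S c T y v c0 hR hO.1
    refine ⟨Ufam R b e' g', ?_, ?_, ?_⟩
    · unfold Vf
      rw [if_pos h2e, mem_union]
      right
      rw [mem_image]
      exact ⟨(e', g'), mem_univ _, rfl⟩
    · intro x hx
      rw [← h1, mem_filter]
      exact ⟨mem_univ _, by omega⟩
    · intro x hx
      rw [← h1, mem_filter] at hx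
      exact hx.2

end Pool.Agent.Helper28.MT3
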