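import Pool.Agent.Helper28.MT.Goals3
import Pool.Agent.Helper67.MT.K

/-!
# Project MT3: the key inequality with the whole dual sum (packet MT3-K3)
-/

set_option autoImplicit false

namespace Pool.Agent.Helper28.MT3

open Finset
open Pool.Agent.Helper55.Rota
open Pool.Agent.Helper28.MT
open Pool.Agent.Helper67.MT (sum_thr sum_thr2)

/-- **MT3-K3**. -/
theorem mt3_k3 : G_W → G_ACT → G_K3 := by
  intro hW hA α _ _ R n k b S S0 c hn hloop hk hS0 hyp
  -- Rado's condition
  have hrado : ∀ I : Finset (Fin n), I.card ≤ R.r (S ∩ blkU b I) := by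
    intro I
    by_contra hcon
    push Not at hcon
    have hr : R.r (cl R (S ∩ blkU b I)) < I.card := by rwa [r_cl]
    obtain ⟨h0, h1⟩ := hyp I (cl R (S ∩ blkU b I)) (closed_cl R _) hr
    have h2 : S0 ∩ (blkU b I \ cl R (S ∩ blkU b I)) = ∅ := by
      rw [eq_empty_iff_forall_notMem]
      intro x hx
      rw [mem_inter, mem_sdiff] at hx
      exact hx.2.2 (subset_cl R _ (mem_inter.mpr ⟨hS0 hx.1, hx.2.1⟩))
    rw [h2, card_empty, mul_zero, Nat.le_zero] at h1
    rw [h1, Nat.le_zero, mul_eq_zero] at h0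
    omega
  obtain ⟨T, y0, v0, hO0⟩ := hW α R n b S c hn hloop hrado
  obtain ⟨y, v, hO, hact⟩ := hA α R n b S c T y0 v0 hn hloop hO0
  refine ⟨T, y, v, ⟨hO, hact⟩, ?_⟩
  obtain ⟨hTS, hT1, hTn, hcl, hle, heq, hlev⟩ := hO
  obtain ⟨M, hMy, hMv⟩ : ∃ M : ℕ, (∀ i, y i ≤ M) ∧ ∀ x, v x ≤ M :=
    ⟨univ.sup y + univ.sup v, fun i => (le_sup (f := y) (mem_univ i)).trans (Nat.le_add_right _ _),
      fun x => (le_sup (f := v) (mem_univ x)).trans (Nat.le_add_left _ _)⟩
  let I : ℕ → Finset (Fin n) := fun m => univ.filter (fun i => m + 1 ≤ y i)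
  -- the three sums
  have e1 : ∑ x ∈ T, y (b x) = ∑ m ∈ range M, (I m).card := by
    have h1 : ∑ x ∈ T, y (b x) = ∑ i, y i := by
      rw [← sum_fiberwise_of_maps_to (s := T) (t := univ) (g := b) (fun x _ => mem_univ _)
        (fun x => y (b x))]
      refine sum_congr rfl fun i _ => ?_
      have h2 : ∑ x ∈ T.filter (fun x => b x = i), y (b x) =
          ∑ x ∈ T.filter (fun x => b x = i), y i :=
        sum_congr rfl fun x hx => by rw [(mem_filter.mp hx).2]
      rw [h2, sum_const, hT1 i, one_smul]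
    rw [h1]
    calc ∑ i, y i = ∑ i, ∑ m ∈ range M, (if m + 1 ≤ y i then 1 else 0) :=
          sum_congr rfl fun i _ => (sum_thr _ _ (hMy i)).symm
      _ = ∑ m ∈ range M, ∑ i, (if m + 1 ≤ y i then 1 else 0) := sum_comm
      _ = ∑ m ∈ range M, (I m).card := sum_congr rfl fun m _ => (card_filter _ _).symm
  have e2 : ∑ x ∈ T, v x = ∑ m ∈ range M, R.r (lev v (m + 1)) := by
    calc ∑ x ∈ T, v x = ∑ x ∈ T, ∑ m ∈ range M, (if m + 1 ≤ v x then 1 else 0) :=
          sum_congr rfl fun x _ => (sum_thr _ _ (hMv x)).symm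
      _ = ∑ m ∈ range M, ∑ x ∈ T, (if m + 1 ≤ v x then 1 else 0) := sum_comm
      _ = ∑ m ∈ range M, R.r (lev v (m + 1)) := by
          refine sum_congr rfl fun m _ => ?_
          rw [← hlev (m + 1), ← card_filter]
          congr 1
          ext x
          simp only [mem_filter, mem_inter, mem_lev]
  have e3 : ∀ W : Finset α, ∑ x ∈ W, (y (b x) - v x) =
      ∑ m ∈ range M, (W ∩ (blkU b (I m) \ lev v (m + 1))).card := by
    intro W
    calc ∑ x ∈ W, (y (b x) - v x) = ∑ x ∈ W, ∑ m ∈ range M,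
          (if m + 1 ≤ y (b x) ∧ ¬ m + 1 ≤ v x then 1 else 0) :=
          sum_congr rfl fun x _ => (sum_thr2 _ _ _ (hMy (b x))).symm
      _ = ∑ m ∈ range M, ∑ x ∈ W, (if m + 1 ≤ y (b x) ∧ ¬ m + 1 ≤ v x then 1 else 0) := sum_comm
      _ = ∑ m ∈ range M, (W ∩ (blkU b (I m) \ lev v (m + 1))).card := by
          refine sum_congr rfl fun m _ => ?_
          rw [← card_filter]
          congr 1
          ext x
          simp only [mem_filter, mem_inter, mem_sdiff, mem_blkU, mem_lev, I, mem_univ, true_and]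
  have e4 : ∑ x ∈ T, v x + ∑ x ∈ T, c x = ∑ x ∈ T, y (b x) := by
    rw [← sum_add_distrib]
    exact sum_congr rfl fun x hx => (heq x hx).symm
  have e5 : ∑ x, (y (b x) - v x) = ∑ m ∈ range M, (blkU b (I m) \ lev v (m + 1)).card := by
    rw [e3 univ]
    simp only [univ_inter]
  -- the levels
  have hcase : ∀ m, (R.r (lev v (m + 1)) < (I m).card) ∨
      (I m = ∅ ∧ (blkU b (I m) \ lev v (m + 1)) = ∅) := by
    intro m
    rcases (I m).eq_empty_or_nonempty with h | ⟨i, hi⟩
    · right
      refine ⟨h, ?_⟩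
      rw [h]
      ext x
      simp [blkU]
    · left
      have hi' : m + 1 ≤ y i := by simpa [I] using hi
      exact hact (m + 1) (by omega) i hi'
  refine ⟨?_, ?_, ?_⟩
  · -- cost
    have key : ∀ m ∈ range M, k * (I m).card ≤
        k * R.r (lev v (m + 1)) + (blkU b (I m) \ lev v (m + 1)).card := by
      intro m _
      rcases hcase m with h | ⟨h, -⟩
      · have h1 := (hyp (I m) (lev v (m + 1)) (hcl (m + 1)) h).1
        have h2 : k * (I m).card = k * R.r (lev v (m + 1)) +
            k * ((I m).card - R.r (lev v (m + 1))) := by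
          rw [← Nat.mul_add, Nat.add_sub_cancel' h.le]
        omega
      · rw [h, card_empty, mul_zero]
        exact Nat.zero_le _
    have hsum := sum_le_sum key
    rw [sum_add_distrib, ← mul_sum, ← mul_sum, ← e1, ← e2, ← e5, ← e4] at hsum
    rw [Nat.mul_add] at hsum
    omega
  · intro i
    rw [e5]
    have h1 : k * y i = ∑ m ∈ range M, (if m + 1 ≤ y i then k else 0) := by
      conv_lhs => rw [← sum_thr (y i) M (hMy i)]
      rw [mul_sum]
      refine sum_congr rfl fun m _ => ?_
      split_ifs <;> simp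
    rw [h1]
    refine sum_le_sum fun m _ => ?_
    split_ifs with h
    · rcases hcase m with h2 | ⟨h2, -⟩
      · have h3 := (hyp (I m) (lev v (m + 1)) (hcl (m + 1)) h2).1
        have h4 : k * 1 ≤ k * ((I m).card - R.r (lev v (m + 1))) := Nat.mul_le_mul_left k (by omega)
        omega
      · exfalso
        have : i ∈ I m := mem_filter.mpr ⟨mem_univ _, h⟩
        rw [h2] at this
        simp at this
    · exact Nat.zero_le _
  · rw [e5, e3 S0, mul_sum]
    refine sum_le_sum fun m _ => ?_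
    rcases hcase m with h | ⟨-, h⟩
    · exact (hyp (I m) (lev v (m + 1)) (hcl (m + 1)) h).2
    · rw [h]
      simp

end Pool.Agent.Helper28.MT3
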