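import Pool.Agent.Helper28.MT.Goals3

/-!
Project MT3 (MP_bb782b_co), packet MT3-NUM3: numbers.
-/

set_option autoImplicit false

namespace Pool.Agent.Helper28.MT3

theorem mt3_num3 : G_NUM3 := by
  refine ⟨1 / 2 ^ 71, by positivity, fun k hk => ?_⟩
  set h := Nat.clog 2 k with hh
  have hkh : k ≤ 2 ^ h := Nat.le_pow_clog (by norm_num) k
  have hh1 : 1 ≤ h := Nat.clog_pos (by norm_num) hk
  have hkh2 : 2 ^ h ≤ 2 * k := by
    have h1 : 2 ^ h.pred < k := Nat.pow_pred_clog_lt_self (by norm_num) (by omega)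
    have h2 : 2 ^ h = 2 ^ h.pred * 2 := by
      rw [← pow_succ]
      congr 1
      rw [Nat.pred_eq_sub_one]
      omega
    omega
  by_cases hA : k < 2 ^ 71
  · refine ⟨h, 0, hkh, hkh2, ?_, Or.inl rfl⟩
    have h1 : (k : ℝ) ≤ 2 ^ 71 := by exact_mod_cast hA.le
    push_cast
    rw [one_div, inv_mul_le_iff₀ (by positivity)]
    linarith
  · push Not at hA
    set s := Nat.log 2 (k / 2 ^ 70) with hs
    have hApos : 0 < 2 ^ 70 := by positivity
    have h2 : 2 ≤ k / 2 ^ 70 := (Nat.le_div_iff_mul_le hApos).2 (le_trans (by norm_num) hA)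
    have h3 : 2 ^ s ≤ k / 2 ^ 70 := Nat.pow_log_le_self 2 (by omega)
    have h4 : k / 2 ^ 70 < 2 ^ (s + 1) := Nat.lt_pow_succ_log_self (by norm_num) _
    have h5 : 2 ^ s * 2 ^ 70 ≤ k := (Nat.le_div_iff_mul_le hApos).1 h3
    have h6 : k < 2 ^ (s + 1) * 2 ^ 70 := (Nat.div_lt_iff_lt_mul hApos).1 h4
    have hs1 : 1 ≤ s := Nat.log_pos (by norm_num) h2
    have h7 : h < s + 72 := by
      have h8 : 2 ^ h < 2 ^ (s + 72) := by
        calc 2 ^ h ≤ 2 * k := hkh2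
          _ < 2 * (2 ^ (s + 1) * 2 ^ 70) := Nat.mul_lt_mul_of_pos_left h6 (by norm_num)
          _ = 2 ^ (s + 72) := by ring
      exact (Nat.pow_lt_pow_iff_right (by norm_num)).1 h8
    refine ⟨h, s, hkh, hkh2, ?_, Or.inr ⟨hs1, by omega, by rw [mul_comm]; exact h5⟩⟩
    have h9 : (k : ℝ) ≤ 2 ^ s * 2 ^ 71 := by
      have : (k : ℝ) ≤ ((2 ^ (s + 1) * 2 ^ 70 : ℕ) : ℝ) := by exact_mod_cast h6.le
      refine le_trans this (le_of_eq ?_)
      push_cast
      ring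
    push_cast
    rw [one_div, inv_mul_le_iff₀ (by positivity)]
    linarith

end Pool.Agent.Helper28.MT3
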